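import Pool.Agent.X14.PB2

/-!
# Two truncated hypergeometric sums modulo `p^{r+4}`
-/

set_option autoImplicit false

namespace Pool.Agent.Results.MP_c42a9c_nt.AllOddPrimePowers

open Finset

/-- The rising factorial `(x)_k = x (x+1) ⋯ (x+k-1)`. -/
def rf (x : ℚ) (k : ℕ) : ℚ := ∏ i ∈ range k, (x + i)

/-- The sum `A_r(p)`. -/
def A (r p : ℕ) : ℚ := ∑ k ∈ range ((p ^ r - 1) / 2 + 1), (4 * (k : ℚ) + 1) * (rf (1 / 2) k ^ 4 / (k.factorial : ℚ) ^ 4)

/-- The sum `B_r(p)`. -/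
def B (r p : ℕ) : ℚ := ∑ k ∈ range (p ^ r), (3 * (k : ℚ) + 1) * (rf (1 / 2) k ^ 3 / (k.factorial : ℚ) ^ 3) * 2 ^ (2 * k)

lemma rf_half (k : ℕ) : rf (1 / 2) k / (k.factorial : ℚ) = (k.centralBinom : ℚ) / 4 ^ k := by
  induction k with
  | zero => simp [rf]
  | succ k ih =>
    have h1 : rf (1 / 2) (k + 1) = rf (1 / 2) k * (1 / 2 + k) := by rw [rf, prod_range_succ, ← rf]
    have h2 := Nat.succ_mul_centralBinom_succ k
    have h3 : ((k : ℚ) + 1) * ((k + 1).centralBinom : ℚ) = 2 * (2 * k + 1) * (k.centralBinom : ℚ) := by exact_mod_cast h2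
    have h4 : (k.factorial : ℚ) ≠ 0 := by exact_mod_cast Nat.factorial_ne_zero k
    have h5 : ((k : ℚ) + 1) ≠ 0 := by positivity
    rw [h1, Nat.factorial_succ]
    push_cast
    have h6 : ((k + 1).centralBinom : ℚ) = 2 * (2 * k + 1) * (k.centralBinom : ℚ) / (k + 1) := by
      rw [eq_div_iff h5, ← h3]; ring
    have h7 : rf (1 / 2) k * (1 / 2 + (k : ℚ)) / (((k : ℚ) + 1) * (k.factorial : ℚ)) =
        rf (1 / 2) k / (k.factorial : ℚ) * ((1 / 2 + (k : ℚ)) / (k + 1)) := by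
      rw [mul_comm ((k : ℚ) + 1), mul_div_mul_comm]
    rw [h7, ih, h6, pow_succ]
    have h8 : (4 : ℚ) ^ k ≠ 0 := by positivity
    field_simp
    ring

/-- For every odd prime `p` and every `r ≥ 1`: `A_r(p) ≡ B_r(p) (mod p^{r+4})`, i.e.
`A_r(p) - B_r(p) = p^{r+4} u` with a rational number `u` whose denominator is prime to `p`. -/
theorem result (p r : ℕ) (hp : p.Prime) (hp2 : p ≠ 2) (hr : 1 ≤ r) :
    ∃ u : ℚ, ¬ p ∣ u.den ∧ A r p - B r p = (p : ℚ) ^ (r + 4) * u := by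
  obtain ⟨r, rfl⟩ : ∃ r', r = r' + 1 := ⟨r - 1, by omega⟩
  obtain ⟨s, hs⟩ : ∃ s, p ^ (r + 1) = 2 * s + 1 := (hp.odd_of_ne_two hp2).pow
  obtain ⟨z, hz⟩ := Pool.Agent.X14.PA.main_padic hp hp2 hs rfl
  refine ⟨z / 2 ^ (8 * p ^ (r + 1)), ?_, ?_⟩
  · intro h
    have h1 : ((z : ℚ) / 2 ^ (8 * p ^ (r + 1))).den ∣ 2 ^ (8 * p ^ (r + 1)) := by
      have := Rat.den_dvd z (2 ^ (8 * p ^ (r + 1)))
      rw [Rat.divInt_eq_div] at this
      push_cast at this
      exact_mod_cast this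
    have h2 := hp.dvd_of_dvd_pow (h.trans h1)
    exact hp2 ((Nat.prime_dvd_prime_iff_eq hp Nat.prime_two).1 h2)
  · rw [show r + 1 + 4 = r + 5 by ring, ← hz, A, B]
    congr 1
    · rw [show (p ^ (r + 1) - 1) / 2 + 1 = s + 1 by omega]
      apply sum_congr rfl
      intro k _
      rw [← div_pow, rf_half]
    · apply sum_congr rfl
      intro k _
      rw [← div_pow, rf_half]

end Pool.Agent.Results.MP_c42a9c_nt.AllOddPrimePowers
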